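import Pool.Agent.Q66.RX.Stm
import Pool.Agent.H1R3.BT.Main2
import Pool.Agent.H1R3.BT.L2

set_option autoImplicit false

/-! Job PKH of project RX: nonnegative integrable functions whose transform vanishes off a
neighbourhood of one. -/

namespace Pool.Agent.Q217.RX

open Topology Filter Set MeasureTheory
open scoped InnerProductSpace ComplexConjugate
open Pool.Agent.Q66.RX

theorem t_PKH : S_PKH := by
  intro X _ _ _ _ _ _ _ μ _ _ N hN
  letI : MeasurableSpace (PontryaginDual X) := borel _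
  haveI : BorelSpace (PontryaginDual X) := ⟨rfl⟩
  obtain ⟨h, hne, horth⟩ := (Pool.Agent.H1R3.BT.sys μ).exists_h
    (Measure.haar : Measure (PontryaginDual X)) hN
  refine ⟨fun x => ‖h x‖ ^ 2, ?_, fun x => by positivity, ?_, ?_⟩
  · exact (Lp.memLp h).integrable_norm_pow (by norm_num)
  · have h1 : ⟪h, h⟫_ℂ = ((∫ x, ‖h x‖ ^ 2 ∂μ : ℝ) : ℂ) := by
      rw [L2.inner_def, ← integral_complex_ofReal]
      congr 1; ext x
      rw [inner_self_eq_norm_sq_to_K]
      push_cast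
      rfl
    have h2 : ⟪h, h⟫_ℂ = ((‖h‖ ^ 2 : ℝ) : ℂ) := by
      rw [inner_self_eq_norm_sq_to_K]
      push_cast
      rfl
    have h3 : ∫ x, ‖h x‖ ^ 2 ∂μ = ‖h‖ ^ 2 := by
      apply Complex.ofReal_injective
      rw [← h1, h2]
    rw [h3]
    have : 0 < ‖h‖ := norm_pos_iff.2 hne
    positivity
  · intro χ hχ
    have h1 : ⟪h, Pool.Agent.H1R3.BT.modl μ χ h⟫_ℂ = 0 := horth χ hχ
    rw [L2.inner_def] at h1
    rw [← h1]
    apply integral_congr_ae
    filter_upwards [Pool.Agent.H1R3.BT.modl_coe μ χ h] with x hx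
    rw [hx]
    have h4 : ((‖h x‖ ^ 2 : ℝ) : ℂ) = h x * conj (h x) := by
      rw [Complex.mul_conj, Complex.normSq_eq_norm_sq]
    have h5 : ⟪h x, ((χ x : Circle) : ℂ) * h x⟫_ℂ = ((χ x : Circle) : ℂ) * h x * conj (h x) := rfl
    rw [h5]
    show ((‖h x‖ ^ 2 : ℝ) : ℂ) * ((χ x : Circle) : ℂ) = _
    rw [h4]
    ring

end Pool.Agent.Q217.RX
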